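import Mathlib
import Pool.Agent.Lib.MP_406d9d_co.Final

set_option autoImplicit false

namespace Pool.Agent.Results.MP_406d9d_co.NegativeSquareEnergy

open Pool.Agent.Lib.MP_406d9d_co

/-- Every non-bipartite unicyclic graph `G` with `n ≥ 7` vertices satisfies
`s⁻(G) ≥ s⁻(H³ₙ)`. -/
theorem result {V : Type*} [Fintype V] (G : SimpleGraph V) (hn : 7 ≤ Fintype.card V)
    (hG : IsUnicyclic G) (hnb : ¬ G.IsBipartite) :
    sMinus (starCycle 3 (Fintype.card V)) ≤ sMinus G :=
  sMinus_ge G _ hn rfl hG hnb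

end Pool.Agent.Results.MP_406d9d_co.NegativeSquareEnergy
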